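import Pool.Agent.Lib.MP_33280d_mp.Defs
import Pool.Agent.Lib.MP_33280d_mp.Choice

/-!
# Unbounded generalized eigenfunctions for a banded self-adjoint operator

A bounded self-adjoint operator `A` on `ℓ²(ℤ)` with `a_{ij} = 0` for `|i - j| ≥ 3`, together with
a BGK expansion `(ρ, n, u)` of `A`, such that `ρ` is absolutely continuous, carried by `(-2,2)`,
`n = 2` there, and for every `E ∈ (-2,2)` both sequences `u_α(E; ·)` are unbounded; more precisely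
`|u_α(E; m)| ≤ (1 + |m|)^{1/2}` for all `m`, and `|u_α(E; m)| ≥ |m|^{1/2} / 16` for `|m|`
arbitrarily large.
-/

set_option autoImplicit false

open MeasureTheory Pool.Agent.Lib.MP_33280d_mp

namespace Pool.Agent.Results.MP_33280d_mp.UnboundedBGK

/-- There are a bounded self-adjoint banded operator on `ℓ²(ℤ)` and a BGK expansion of it all of
whose generalized eigenfunctions are unbounded. -/
theorem result :
    ∃ (A : SeqSpace →L[ℂ] SeqSpace) (ρ : Measure ℝ) (n : ℝ → ℕ∞) (u : ℝ → ℕ → ℤ → ℂ),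
      IsSelfAdjoint A ∧ IsBanded A 3 ∧ IsBGK A ρ n u ∧
      IsFiniteMeasure ρ ∧ ρ ≪ volume ∧ 0 < ρ (Set.Ioo (-2) 2) ∧ ρ (Set.Ioo (-2) 2)ᶜ = 0 ∧
      ∀ E ∈ Set.Ioo (-2 : ℝ) 2, n E = 2 ∧ ∀ α : ℕ, α < 2 →
        (∀ m : ℤ, ‖u E α m‖ ≤ Real.sqrt (1 + |(m : ℝ)|)) ∧
        (∀ M : ℕ, ∃ m : ℤ, (M : ℝ) ≤ |(m : ℝ)| ∧ Real.sqrt |(m : ℝ)| / 16 ≤ ‖u E α m‖) ∧
        ¬ ∃ C : ℝ, ∀ m : ℤ, ‖u E α m‖ ≤ C := by
  refine ⟨AA aa norm_aa_lt, rho, mult, uu aa, selfAdjoint_AA _ _, banded_AA _ _,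
    isBGK_AA _ _ ?_, inferInstance, rho_ac, rho_pos, ?_, ?_⟩
  · refine ⟨1, fun z hz m => (norm_ff_le hz m).trans ?_⟩
    rw [one_mul]
    have h : (0 : ℝ) ≤ |(m : ℝ)| := abs_nonneg _
    rw [Real.sqrt_le_left (by linarith)]
    nlinarith
  · exact ae_mem
  · intro E hE
    refine ⟨mult_of_mem hE, fun α _ => ⟨fun m => ?_, fun M => ?_, ?_⟩⟩
    · rw [uu, Complex.norm_conj]
      exact norm_ff_le (norm_zpt E α) m
    · obtain ⟨m, h1, h2⟩ := exists_large (norm_zpt E α) M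
      refine ⟨m, h1, ?_⟩
      rw [uu, Complex.norm_conj]
      exact h2
    · rintro ⟨C, hC⟩
      obtain ⟨M, hM⟩ := exists_nat_gt ((16 * |C|) ^ 2)
      obtain ⟨m, h1, h2⟩ := exists_large (norm_zpt E α) M
      have h3 := hC m
      rw [uu, Complex.norm_conj] at h3
      have h4 : Real.sqrt |(m : ℝ)| ≤ 16 * |C| := by
        have := le_abs_self C
        linarith
      have h5 : |(m : ℝ)| ≤ (16 * |C|) ^ 2 := by
        rw [Real.sqrt_le_left (by positivity)] at h4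
        exact h4
      linarith

end Pool.Agent.Results.MP_33280d_mp.UnboundedBGK
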